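import Mathlib
import Pool.Agent.H109R3.CF.Gram

set_option autoImplicit false

namespace Pool.Agent.Results.MP_88f7c7_lc.Undecidable

open Pool.Agent.H109R3.CF

/-- There is a substitution, namely `0 ↦ 0`, `1 ↦ 01`, `2 ↦ 021`, for which no algorithm decides,
given a context-free grammar `G`, whether some word generated by `G` occurs in a point of the
subshift generated by the substitution. -/
theorem result : ∃ τ : Fin 3 → List (Fin 3), τ = ![[0], [0, 1], [0, 2, 1]] ∧
    ¬ ComputablePred (fun G : Gram 3 => ∃ w ∈ G.toCFG.language, w ∈ lang (subshift τ)) :=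
  ⟨tau, rfl, main⟩

end Pool.Agent.Results.MP_88f7c7_lc.Undecidable
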